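import Mathlib

set_option autoImplicit false

namespace Pool.Agent.H.MP_b5ad3e_nt

open Finset

set_option maxHeartbeats 300000

noncomputable def g (m k z : ℕ) : ℝ := (if z = k then 1 else 0) - 1 / 2 ^ m

noncomputable def dv (m k x l : ℕ) : ℝ := ∑ i ∈ range (l / m), g m k (x / 2 ^ (m * i) % 2 ^ m)

theorem g_le (m k z : ℕ) : |g m k z| ≤ 1 := by
  have a : (0 : ℝ) < 1 / 2 ^ m := by positivity
  have b : (1 : ℝ) / 2 ^ m ≤ 1 := div_le_one_of_le₀ (one_le_pow₀ one_le_two) (by positivity)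
  unfold g; split_ifs <;> exact abs_le.mpr ⟨by linarith, by linarith⟩

theorem dv_le (m k x l : ℕ) : |dv m k x l| ≤ (l / m : ℕ) :=
  (abs_sum_le_sum_abs _ _).trans ((sum_le_card_nsmul _ _ 1 fun _ _ => g_le _ _ _).trans_eq (by simp))

theorem dv_cat {m l : ℕ} (hm : 0 < m) (h : m ∣ l) (k y l' : ℕ) {z : ℕ} (hz : z < 2 ^ l) :
    dv m k (y * 2 ^ l + z) (l + l') = dv m k z l + dv m k y l' := by
  obtain ⟨q, rfl⟩ := h
  simp only [dv, Nat.mul_add_div hm, Nat.mul_div_cancel_left _ hm, sum_range_add]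
  congr 1 <;> refine sum_congr rfl fun i hi => ?_
  · obtain ⟨j, rfl⟩ := Nat.exists_eq_add_of_lt (mem_range.mp hi)
    rw [show y * 2 ^ (m * (i + j + 1)) = 2 ^ (m * i) * (2 ^ m * (y * 2 ^ (m * j))) by ring,
      Nat.mul_add_div (by positivity), Nat.mul_add_mod]
  · rw [mul_add, pow_add, ← Nat.div_div_eq_div_mul, mul_comm y, Nat.mul_add_div (by positivity),
      Nat.div_eq_of_lt hz, add_zero]

theorem srm (f : ℕ → ℝ) (A B : ℕ) :
    ∑ w ∈ range (A * B), f w = ∑ y ∈ range A, ∑ z ∈ range B, f (y * B + z) := by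
  induction A with
  | zero => simp
  | succ A ih => rw [add_one_mul, sum_range_add, ih, sum_range_succ]

theorem S12 {m k : ℕ} (hm : 0 < m) (hk : k < 2 ^ m) (q : ℕ) :
    ∑ w ∈ range (2 ^ (m * q)), dv m k w (m * q) = 0 ∧
    ∑ w ∈ range (2 ^ (m * q)), dv m k w (m * q) ^ 2 = q * 2 ^ (m * q) * ((2 ^ m - 1) / (2 ^ m) ^ 2) := by
  induction q with
  | zero => simp [dv]
  | succ q ih =>
    have e : ∀ y, ∀ z ∈ range (2 ^ m), dv m k (y * 2 ^ m + z) (m * (q + 1)) = g m k z + dv m k y (m * q) :=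
      fun y z hz => by
        rw [mul_add_one, add_comm _ m, dv_cat hm dvd_rfl _ _ _ (mem_range.mp hz)]
        simp [dv, Nat.div_self hm, Nat.mod_eq_of_lt (mem_range.mp hz)]
    have g1 : ∑ z ∈ range (2 ^ m), g m k z = 0 := by simp [g, hk]
    have g2 : ∑ z ∈ range (2 ^ m), g m k z ^ 2 = 1 - 1 / 2 ^ m := by
      rw [sum_congr rfl (g := fun z => (1 - 2 / 2 ^ m) * g m k z + (1 - 1 / 2 ^ m) / 2 ^ m) fun z _ => by
        unfold g; split_ifs <;> ring, sum_add_distrib, ← mul_sum, g1]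
      simp; field_simp
    rw [show 2 ^ (m * (q + 1)) = 2 ^ (m * q) * 2 ^ m by ring, srm, srm]
    simp only [fun y => sum_congr rfl (e y), fun y => sum_congr rfl fun z hz => congrArg (· ^ 2) (e y z hz),
      add_sq, sum_add_distrib, ← mul_sum, ← sum_mul, g1, g2, sum_const, card_range, nsmul_eq_mul, ih.1, ih.2]
    refine ⟨by simp, ?_⟩
    push_cast
    rw [mul_add_one, pow_add]; field_simp; ring

theorem dv_list {m K : ℕ} (hm : 0 < m) (h : m ∣ K) (k : ℕ) (l : List ℕ) (hl : ∀ x ∈ l, x < 2 ^ K) :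
    dv m k (Nat.ofDigits (2 ^ K) l) (K * l.length) = (l.map fun w => dv m k w K).sum := by
  induction l with
  | nil => simp [dv]
  | cons a l ih =>
    rw [Nat.ofDigits_cons, List.length_cons, mul_add_one, add_comm _ K, add_comm a, mul_comm,
      dv_cat hm h _ _ _ (hl a (by simp)), ih fun x hx => hl x (by simp [hx])]
    simp

theorem tilt {K m k : ℕ} (hK : 0 < K) (h : m ∣ K) (hk : k < 2 ^ m) (s : ℤ) (hs : |s| ≤ 1) :
    ∃ x < 2 ^ (K * 2 ^ K * (K * 2 ^ K)), ∀ m' k', m' ∣ K → k' < 2 ^ m' →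
      dv m' k' x (K * 2 ^ K * (K * 2 ^ K)) =
        s * (2 ^ m * ∑ w ∈ range (2 ^ K), dv m k w K * dv m' k' w K) := by
  have m0 := Nat.pos_of_dvd_of_pos h hK
  have s1 : ∀ {m k}, m ∣ K → k < 2 ^ m → ∑ w ∈ range (2 ^ K), dv m k w K = 0 := fun {m k} h hk => by
    have m0 := Nat.pos_of_dvd_of_pos h hK
    obtain ⟨q, rfl⟩ := h
    exact (S12 m0 hk q).1
  have : ∀ w, ∃ n : ℕ, (n : ℝ) = K * 2 ^ K + s * (2 ^ m * dv m k w K) := fun w => by
    obtain ⟨z, hz⟩ : ∃ z : ℤ, (z : ℝ) = K * 2 ^ K + s * (2 ^ m * dv m k w K) :=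
      ⟨K * 2 ^ K + s * ∑ i ∈ range (K / m), (2 ^ m * (if w / 2 ^ (m * i) % 2 ^ m = k then 1 else 0) - 1), by
        push_cast
        simp only [dv, g, mul_sum, mul_sub, mul_one_div, div_self (show (2 : ℝ) ^ m ≠ 0 by positivity)]⟩
    lift z to ℕ using (by
      have a := (dv_le m k w K).trans (Nat.cast_le.mpr (Nat.div_le_self K m))
      have b : (2 : ℝ) ^ m ≤ 2 ^ K := pow_le_pow_right₀ one_le_two (Nat.le_of_dvd hK h)
      have c : |(s : ℝ)| ≤ 1 := by exact_mod_cast hs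
      have : |s * (2 ^ m * dv m k w K)| ≤ 1 * (2 ^ K * K) := by
        rw [abs_mul, abs_mul, abs_of_pos (by positivity : (0 : ℝ) < 2 ^ m)]; gcongr
      exact_mod_cast (show (0 : ℝ) ≤ z by linarith [abs_le.mp this]))
    exact ⟨z, by exact_mod_cast hz⟩
  choose n hn using this
  have e : ∀ (f : ℕ → ℝ) (N : ℕ), (((List.range N).flatMap fun w => List.replicate (n w) w).map f).sum =
      ∑ w ∈ range N, n w * f w := fun f N => by
    induction N with
    | zero => simp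
    | succ N ih => simp [List.range_succ, sum_range_succ, ← ih]
  obtain ⟨l, hl⟩ : ∃ l, l = (List.range (2 ^ K)).flatMap fun w => List.replicate (n w) w := ⟨_, rfl⟩
  have l1 : ∀ x ∈ l, x < 2 ^ K := by simp +contextual [hl]
  have l2 : K * 2 ^ K * (K * 2 ^ K) = K * l.length := by
    have := e (fun _ => 1) (2 ^ K)
    simp only [← hl, hn, mul_one, sum_add_distrib, ← mul_sum, s1 h hk] at this
    simp at this
    rw [show l.length = K * (2 ^ K * 2 ^ K) by exact_mod_cast this]; ring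
  rw [l2]
  refine ⟨Nat.ofDigits (2 ^ K) l, pow_mul 2 K _ ▸ Nat.ofDigits_lt_base_pow_length
    (Nat.one_lt_two_pow hK.ne') l1, fun m' k' a b => ?_⟩
  rw [dv_list (Nat.pos_of_dvd_of_pos a hK) a _ l l1, hl, e]
  simp only [hn, add_mul, sum_add_distrib, ← mul_sum, s1 a b, mul_assoc]
  simp

def Bal (K l x : ℕ) : Prop := ∀ m k, m ∣ K → k < 2 ^ m → dv m k x l = 0

theorem bal {K : ℕ} (hK : 0 < K) (s : ℕ) : ∃ E : Finset ℕ, (2 ^ K).factorial ^ s ≤ E.card ∧
    ∀ x ∈ E, 2 ^ (K * 2 ^ K * (s + 1)) ≤ 2 * x ∧ x < 2 ^ (K * 2 ^ K * (s + 1)) ∧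
      Bal K (K * 2 ^ K * (s + 1)) x := by
  have b := Nat.one_lt_two_pow hK.ne'
  have p : ∀ l : List ℕ, l.Perm (List.range (2 ^ K)) → Nat.ofDigits (2 ^ K) l < 2 ^ (K * 2 ^ K) ∧
      Bal K (K * 2 ^ K) (Nat.ofDigits (2 ^ K) l) := fun l hl => by
    have l1 : ∀ x ∈ l, x < 2 ^ K := fun x hx => List.mem_range.mp (hl.subset hx)
    have l2 : l.length = 2 ^ K := by simp [hl.length_eq]
    refine ⟨by simpa [pow_mul, l2] using Nat.ofDigits_lt_base_pow_length b l1, fun m k a c => ?_⟩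
    have m0 := Nat.pos_of_dvd_of_pos a hK
    have := dv_list m0 a k l l1
    rw [l2] at this
    rw [this, (hl.map _).sum_eq]
    obtain ⟨q, rfl⟩ := a
    exact (S12 m0 c q).1
  induction s with
  | zero =>
    refine ⟨{Nat.ofDigits (2 ^ K) (List.range (2 ^ K))}, by simp, fun x hx => ?_⟩
    rw [mem_singleton.mp hx, zero_add, mul_one]
    refine ⟨?_, p _ (.refl _)⟩
    obtain ⟨N, hN⟩ : ∃ N, 2 ^ K = N + 1 := ⟨2 ^ K - 1, by omega⟩
    rw [pow_mul, hN, List.range_succ, Nat.ofDigits_append, pow_succ]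
    simp only [List.length_range, Nat.ofDigits_singleton]
    nlinarith [Nat.zero_le (Nat.ofDigits (N + 1) (List.range N)), 
      Nat.mul_le_mul_left ((N + 1) ^ N) (show N + 1 ≤ 2 * N by omega)]
  | succ s ih =>
    obtain ⟨E, e1, e2⟩ := ih
    refine ⟨(E ×ˢ (List.range (2 ^ K)).permutations.toFinset).image fun a =>
      a.1 * 2 ^ (K * 2 ^ K) + Nat.ofDigits (2 ^ K) a.2, ?_, fun x hx => ?_⟩
    · rw [card_image_of_injOn, card_product, List.toFinset_card_of_nodup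
        (List.nodup_permutations _ List.nodup_range), List.length_permutations, List.length_range, pow_succ]
      · gcongr
      · rintro ⟨a, l⟩ h1 ⟨a', l'⟩ h2 h
        simp only [coe_product, Set.mem_prod, mem_coe, List.mem_toFinset, List.mem_permutations] at h1 h2
        have c := congrArg (· % 2 ^ (K * 2 ^ K)) h
        simp only [Nat.mul_add_mod_of_lt (p _ h1.2).1, Nat.mul_add_mod_of_lt (p _ h2.2).1] at c
        obtain rfl : l = l' := Nat.ofDigits_inj_of_len_eq b (h1.2.trans h2.2.symm).length_eq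
          (fun x hx => List.mem_range.mp (h1.2.subset hx)) (fun x hx => List.mem_range.mp (h2.2.subset hx)) c
        simpa using h
    · obtain ⟨⟨a, l⟩, h, rfl⟩ := mem_image.mp hx
      simp only [mem_product, List.mem_toFinset, List.mem_permutations] at h
      obtain ⟨a1, a2, a3⟩ := e2 a h.1
      obtain ⟨b1, b2⟩ := p l h.2
      rw [mul_add_one _ (s + 1), add_comm _ (K * 2 ^ K), pow_add]
      refine ⟨by nlinarith [Nat.zero_le (Nat.ofDigits (2 ^ K) l)],
        by nlinarith [Nat.mul_le_mul_right (2 ^ (K * 2 ^ K)) a2], fun m k c d => ?_⟩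
      rw [dv_cat (Nat.pos_of_dvd_of_pos c hK) (c.mul_right _) _ _ _ b1, a3 m k c d, b2 m k c d, add_zero]

end Pool.Agent.H.MP_b5ad3e_nt
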