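import Pool.Agent.H.MP_b5ad3e_nt.A

set_option autoImplicit false

namespace Pool.Agent.H.MP_b5ad3e_nt

open Finset Filter Topology

set_option maxHeartbeats 300000

theorem flo {Z : ℕ → ℕ} (h0 : Z 0 = 0) (h : ∀ p j, Z p = Z (p + j) / 2 ^ j)
    (hz : ∀ p, ∃ j, 2 ∣ Z (p + (j + 1))) (p : ℕ) :
    ⌊(∑' i : ℕ, ((Z (i + 1) % 2 : ℕ) : ℝ) / 2 ^ (i + 1)) * 2 ^ p⌋ = Z p := by
  have e : ∀ p, ∑ i ∈ range p, ((Z (i + 1) % 2 : ℕ) : ℝ) / 2 ^ (i + 1) = Z p / 2 ^ p := fun p => by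
    induction p with
    | zero => simp [h0]
    | succ p ih =>
      have : (Z (p + 1) : ℝ) = 2 * Z p + (Z (p + 1) % 2 : ℕ) := by
        rw [h p 1]; exact_mod_cast (Nat.div_add_mod _ 2).symm
      rw [sum_range_succ, ih, this]; field_simp; ring
  have s : Summable fun i : ℕ => ((Z (i + 1) % 2 : ℕ) : ℝ) / 2 ^ (i + 1) :=
    .of_nonneg_of_le (fun _ => by positivity) (fun i => by
      rw [one_div_pow]
      exact div_le_div₀ zero_le_one (by exact_mod_cast (by omega : Z (i + 1) % 2 ≤ 1)) (by positivity)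
        (pow_le_pow_right₀ one_le_two i.le_succ)) summable_geometric_two
  have u : ∀ p j, Z (p + j) < (Z p + 1) * 2 ^ j := fun p j => by
    rw [h p j, mul_comm]; exact Nat.lt_mul_div_succ _ (by positivity)
  rw [Int.floor_eq_iff, ← div_le_iff₀ (by positivity), ← lt_div_iff₀ (by positivity)]
  refine ⟨(e p).ge.trans (s.sum_le_tsum _ fun _ _ => by positivity), ?_⟩
  obtain ⟨j, hj⟩ := hz p
  refine lt_of_le_of_lt (b := ((Z (p + (j + 1)) + 1) / 2 ^ (p + (j + 1)) : ℝ)) (le_of_tendsto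
    s.hasSum.tendsto_sum_nat ((eventually_ge_atTop (p + (j + 1))).mono fun n hn => ?_)) ?_
  · obtain ⟨i, rfl⟩ := Nat.exists_eq_add_of_le hn
    rw [e, pow_add _ _ i, div_le_div_iff₀ (by positivity) (by positivity), mul_comm (2 ^ _ : ℝ), ← mul_assoc]
    gcongr
    exact_mod_cast (u _ i).le
  · rw [pow_add, div_lt_div_iff₀ (by positivity) (by positivity), mul_comm (2 ^ _ : ℝ), ← mul_assoc]
    gcongr
    have := u p (j + 1)
    have : Z (p + (j + 1)) + 1 < (Z p + 1) * 2 ^ (j + 1) := by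
      rw [pow_succ, ← mul_assoc] at *; omega
    exact_mod_cast this

theorem digs {a L : ℕ → ℕ} (h : ∀ n, 2 ^ L n ≤ 2 * a n ∧ a n < 2 ^ L n) (hz : ∀ n, ∃ n' ≥ n, 2 ∣ a n') :
    (∀ n, (Nat.digits 2 (a n)).length = L n) ∧ ∃ d : ℕ → ℕ, (∀ n r, r < L n →
      d (∑ j ∈ range n, L j + r) = (Nat.digits 2 (a n)).reverse.getD r 0) ∧
    ∀ m k : ℕ, 0 < m → ∀ f : ℕ → ℝ, (∀ q, f q = (((range q).filter fun i : ℕ =>
      ⌊(∑' i : ℕ, (d i : ℝ) / 2 ^ (i + 1)) * (2 ^ m) ^ (i + 1)⌋ % (2 : ℤ) ^ m = k).card : ℝ) - q / 2 ^ m) →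
      (∀ q j : ℕ, |f (q + j) - f q| ≤ j) ∧ ∀ n, m ∣ ∑ j ∈ range n, L j → m ∣ L n →
        f ((∑ j ∈ range (n + 1), L j) / m) = f ((∑ j ∈ range n, L j) / m) + dv m k (a n) (L n) := by
  have l0 : ∀ n, 0 < L n := fun n => Nat.pos_of_ne_zero fun c => by have := h n; rw [c] at this; omega
  have l1 : ∀ n, (Nat.digits 2 (a n)).length = L n := fun n => by
    refine le_antisymm ((Nat.digits_length_le_iff one_lt_two _).mpr (h n).2) ?_
    obtain ⟨l, hl⟩ := Nat.exists_eq_succ_of_ne_zero (l0 n).ne'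
    have := (h n).1
    rw [hl, pow_succ] at *
    exact (Nat.lt_digits_length_iff one_lt_two _).mpr (by omega)
  obtain ⟨P, hP⟩ : ∃ P : ℕ → ℕ, ∀ n, ∑ j ∈ range n, L j = P n := ⟨_, fun _ => rfl⟩
  have p1 : ∀ n, P (n + 1) = P n + L n := fun n => by rw [← hP, ← hP, sum_range_succ]
  have p2 : StrictMono P := strictMono_nat_of_lt_succ fun n => by rw [p1]; linarith [l0 n]
  obtain ⟨Y, y0, y1⟩ : ∃ Y : ℕ → ℕ, Y 0 = 0 ∧ ∀ n, Y (n + 1) = Y n * 2 ^ L n + a n :=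
    ⟨fun n => n.rec 0 fun n y => y * 2 ^ L n + a n, rfl, fun _ => rfl⟩
  have dd : ∀ x {a b c : ℕ}, a ≤ b → b ≤ c → x / 2 ^ (c - b) / 2 ^ (b - a) = x / 2 ^ (c - a) :=
    fun x a b c h1 h2 => by rw [Nat.div_div_eq_div_mul, ← pow_add]; congr 2; omega
  have y2 : ∀ n N, n ≤ N → Y n = Y N / 2 ^ (P N - P n) := fun n N hn => by
    induction N, hn using Nat.le_induction with
    | base => simp
    | succ N hn ih =>
      rw [← dd _ (p2.monotone hn) (p2.monotone N.le_succ), p1, y1, Nat.add_sub_cancel_left, mul_comm,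
        Nat.mul_add_div (by positivity), Nat.div_eq_of_lt (h N).2, add_zero, ← ih]
  obtain ⟨Z, z⟩ : ∃ Z : ℕ → ℕ, ∀ p n, p ≤ P n → Z p = Y n / 2 ^ (P n - p) :=
    ⟨fun p => Y p / 2 ^ (P p - p), fun p n hp => by
      beta_reduce
      rw [y2 p (p + n) (by omega), y2 n (p + n) (by omega), dd _ p2.le_apply (p2.monotone (by omega)),
        dd _ hp (p2.monotone (by omega))]⟩
  have z1 : ∀ n, Z (P n) = Y n := fun n => by simp [z _ n le_rfl]
  have z2 : ∀ p j, Z p = Z (p + j) / 2 ^ j := fun p j => by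
    have := p2.le_apply (x := p + j)
    rw [z p (p + j) (by omega), z _ _ this, ← dd _ (Nat.le_add_right p j) this, Nat.add_sub_cancel_left]
  have fl := flo (by simp [z 0 0 (Nat.zero_le _), y0]) z2 fun p => by
    obtain ⟨n, a1, a2⟩ := hz p
    obtain ⟨j, hj⟩ := Nat.exists_eq_add_of_lt (show p < P (n + 1) from
      (Nat.lt_succ_of_le a1).trans_le p2.le_apply)
    refine ⟨j, by rw [← add_assoc, ← hj, z1, y1]; exact dvd_add (Dvd.dvd.mul_left (dvd_pow_self 2 (l0 n).ne') _) a2⟩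
  simp only [hP]
  refine ⟨l1, fun p => Z (p + 1) % 2, fun n r hr => ?_, fun m k hm f hf => ?_⟩
  · rw [List.getD_reverse _ (by rwa [l1]), l1, Nat.getD_digits _ _ le_rfl]
    beta_reduce
    obtain ⟨j, hj⟩ := Nat.exists_eq_add_of_lt hr
    rw [z _ (n + 1) (by rw [p1]; omega), p1, y1, hj, show P n + (r + j + 1) - (P n + r + 1) = j by omega,
      show r + j + 1 - 1 - r = j by omega, show Y n * 2 ^ (r + j + 1) = 2 ^ j * (2 * (Y n * 2 ^ r)) by ring,
      Nat.mul_add_div (by positivity), Nat.mul_add_mod]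
  have e : ∀ q, f q = ∑ i ∈ range q, g m k (Z (m * (i + 1)) % 2 ^ m) := fun q => by
    simp only [hf, ← pow_mul, fl, g, sum_sub_distrib, card_filter]
    push_cast
    simp only [sum_const, card_range, nsmul_eq_mul, mul_one_div]
    congr 1
    exact sum_congr rfl fun i _ => if_congr (by exact_mod_cast Iff.rfl) rfl rfl
  have e2 : ∀ n, m ∣ P n → f (P n / m) = dv m k (Y n) (P n) := fun n ⟨q, hq⟩ => by
    rw [e, dv, ← sum_range_reflect, ← z1, hq, Nat.mul_div_cancel_left _ hm]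
    refine sum_congr rfl fun i hi => ?_
    obtain ⟨j, rfl⟩ := Nat.exists_eq_add_of_lt (mem_range.mp hi)
    rw [z2 _ (m * i), ← mul_add]
    congr 5; omega
  refine ⟨fun q j => ?_, fun n a b => ?_⟩
  · rw [e, e, sum_range_add, add_sub_cancel_left]
    exact (abs_sum_le_sum_abs _ _).trans ((sum_le_card_nsmul _ _ 1 fun _ _ => g_le _ _ _).trans_eq (by simp))
  · rw [e2 n a, e2 _ (p1 n ▸ dvd_add a b), p1, y1, add_comm (P n), dv_cat hm b _ _ _ (h n).2, add_comm]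

end Pool.Agent.H.MP_b5ad3e_nt
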