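import Pool.Agent.H.MP_b5ad3e_nt.B

set_option autoImplicit false

namespace Pool.Agent.H.MP_b5ad3e_nt

open Finset Filter Topology

set_option maxHeartbeats 300000

noncomputable def ph (x : ℝ) : ℝ := √(2 * x * Real.log (Real.log x))

theorem ph_mono {x y : ℝ} (hx : 3 ≤ x) (h : x ≤ y) : ph x ≤ ph y := by
  have : 1 ≤ Real.log x := by
    rw [Real.le_log_iff_exp_le (by linarith)]; linarith [Real.exp_one_lt_d9]
  have := Real.log_nonneg this
  unfold ph; gcongr; linarith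

theorem ph_sc {c ε : ℝ} (hc : 0 < c) (hε : 0 < ε) :
    ∀ᶠ x in atTop, ph (c * x) ≤ (1 + ε) * (√c * ph x) ∧ √c * ph x ≤ (1 + ε) * ph (c * x) := by
  filter_upwards [eventually_gt_atTop 1, Real.tendsto_log_atTop.eventually_ge_atTop (2 * |Real.log c|),
    (Real.tendsto_log_atTop.comp Real.tendsto_log_atTop).eventually_ge_atTop (1 / ε + 1)] with x h0 h1 h2
  have l := Real.log_pos h0
  have e := Real.log_mul hc.ne' (show x ≠ 0 by linarith)
  have a := abs_le.mp (le_refl |Real.log c|)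
  have k : ∀ {u v : ℝ}, 0 < u → u ≤ 2 * v → Real.log u ≤ Real.log v + 1 := fun {u v} hu h => by
    have := Real.log_le_log hu h
    rw [Real.log_mul two_ne_zero (by linarith)] at this
    linarith [Real.log_two_lt_d9]
  have b1 := k (u := Real.log (c * x)) (v := Real.log x) (by linarith) (by linarith)
  have b2 := k (u := Real.log x) (v := Real.log (c * x)) l (by linarith)
  simp only [Function.comp] at h2
  have i := mul_one_div_cancel hε.ne'
  have i0 := one_div_pos.mpr hε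
  have s : ∀ {u v w : ℝ}, 1 / ε ≤ v → u ≤ v + 1 → 0 ≤ w → √(w * u) ≤ (1 + ε) * √(w * v) :=
    fun {u v w} h1 h2 hw => by
      rw [← Real.sqrt_sq (show 0 ≤ 1 + ε by positivity), ← Real.sqrt_mul (by positivity), mul_left_comm]
      gcongr
      nlinarith [mul_le_mul_of_nonneg_left h1 hε.le, mul_pos hε hε]
  unfold ph
  rw [← Real.sqrt_mul hc.le, ← mul_assoc c, mul_left_comm c]
  exact ⟨s (by linarith) b1 (by positivity), s (by linarith) b2 (by positivity)⟩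

theorem ph_bd : ∀ᶠ r : ℝ in atTop, r ^ 2 ≤ ph (r ^ 4) ∧ ph (r ^ 4) ≤ 2 * r ^ 3 := by
  filter_upwards [eventually_gt_atTop 1, (Real.tendsto_log_atTop.comp (Real.tendsto_log_atTop.comp
    (tendsto_pow_atTop (n := 4) (by simp)))).eventually_ge_atTop 1] with r h0 h1
  simp only [Function.comp] at h1
  refine ⟨Real.le_sqrt_of_sq_le (by nlinarith [pow_pos (zero_lt_one.trans h0) 4]),
    Real.sqrt_le_iff.mpr ⟨by positivity, ?_⟩⟩
  have a := Real.log_le_sub_one_of_pos (Real.log_pos (one_lt_pow₀ h0 (n := 4) (by simp)))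
  have b := Real.log_le_sub_one_of_pos (pow_pos (zero_lt_one.trans h0) 2)
  rw [Real.log_pow] at *
  push_cast at *
  nlinarith [pow_pos (zero_lt_one.trans h0) 4]

theorem idx {c : ℕ → ℕ} (hc : ∀ i, 0 < c i) : ∃ I T : ℕ → ℕ, (∀ n, T n < c (I n) ∧
    n = ∑ j ∈ range (I n), c j + T n) ∧ ∀ i t, t < c i →
      I (∑ j ∈ range i, c j + t) = i ∧ T (∑ j ∈ range i, c j + t) = t := by
  have : ∀ n, ∃ i t, t < c i ∧ n = ∑ j ∈ range i, c j + t := fun n => by
    induction n with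
    | zero => exact ⟨0, 0, hc 0, by simp⟩
    | succ n ih =>
      obtain ⟨i, t, a, b⟩ := ih
      by_cases h : t + 1 < c i
      · exact ⟨i, t + 1, h, by omega⟩
      · exact ⟨i + 1, 0, hc _, by rw [sum_range_succ]; omega⟩
  choose I T h using this
  refine ⟨I, T, h, fun i t ht => ?_⟩
  obtain ⟨a, b⟩ := h (∑ j ∈ range i, c j + t)
  generalize I _ = i', T _ = t' at *
  have k : ∀ {i j}, i < j → ∑ j ∈ range i, c j + c i ≤ ∑ j ∈ range j, c j := fun h => by
    rw [← sum_range_succ]; exact sum_le_sum_of_subset (range_mono h)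
  rcases lt_trichotomy i i' with d | rfl | d
  · have := k d; omega
  · omega
  · have := k d; omega

theorem Kex : ∃ K : ℕ → ℕ, (∀ i, 0 < K i ∧ (K i * 2 ^ K i + 2) * (K i * 2 ^ K i) ≤ i + 8) ∧
    ∀ m, 0 < m → ∀ᶠ i in atTop, m ∣ K i := by
  refine ⟨fun i => (Nat.findGreatest (fun j => (j.factorial * 2 ^ j.factorial + 2) *
    (j.factorial * 2 ^ j.factorial) ≤ i + 8) i).factorial, fun i => ⟨Nat.factorial_pos _,
      Nat.findGreatest_spec (P := fun j => (j.factorial * 2 ^ j.factorial + 2) *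
        (j.factorial * 2 ^ j.factorial) ≤ i + 8) i.zero_le (by simp)⟩, fun m hm => ?_⟩
  filter_upwards [eventually_ge_atTop m, eventually_ge_atTop ((m.factorial * 2 ^ m.factorial + 2) *
    (m.factorial * 2 ^ m.factorial))] with i a b
  exact Nat.dvd_factorial hm (Nat.le_findGreatest a (by omega))

noncomputable def cv (K m k m' k' : ℕ) : ℝ := 2 ^ m * ∑ w ∈ range (2 ^ K), dv m k w K * dv m' k' w K

theorem cls {K I m k : ℕ} (hK : 0 < K) (hI : (K * 2 ^ K + 2) * (K * 2 ^ K) ≤ I) (h : m ∣ K)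
    (hk : k < 2 ^ m) : ∃ (l M : ℕ) (w : ℕ → ℤ → ℕ), I ^ 2 < l + K * 2 ^ K ∧ l ≤ I ^ 2 ∧ K ∣ l ∧
    (2 ≤ K → (2 : ℝ) ^ ((1 - 2 / K : ℝ) * (I ^ 2 - I)) ≤ M) ∧ M ≤ 2 ^ l ∧
    (∀ t < M, ∀ s, |s| ≤ 1 → 2 ^ l ≤ 2 * w t s ∧ w t s < 2 ^ l ∧
      ∀ m' k', m' ∣ K → k' < 2 ^ m' → dv m' k' (w t s) l = s * cv K m k m' k') ∧
    ∀ t t' s s', t < t' → t' < M → |s| ≤ 1 → w t s < w t' s' := by
  obtain ⟨Λ, hΛ⟩ : ∃ Λ, K * 2 ^ K = Λ := ⟨_, rfl⟩
  have L0 : 0 < Λ := by rw [← hΛ]; positivity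
  have tl := fun s => tilt hK h hk s
  rw [hΛ] at hI tl ⊢
  choose! tl t1 t2 using tl
  obtain ⟨s, hs⟩ := Nat.exists_eq_add_of_le (show Λ + 1 ≤ I ^ 2 / Λ from
    (Nat.le_div_iff_mul_le L0).mpr (by nlinarith))
  obtain ⟨E, e1, e2⟩ := bal hK s
  rw [hΛ] at e2
  have d1 := Nat.lt_div_mul_add (a := I ^ 2) L0
  have d2 := Nat.div_mul_le_self (I ^ 2) Λ
  rw [hs] at d1 d2
  refine ⟨Λ * Λ + Λ * (s + 1), E.card, fun t s => (if h : t < E.card then E.orderEmbOfFin rfl ⟨t, h⟩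
    else 0) * 2 ^ (Λ * Λ) + tl s, by linarith, by linarith, ?_, fun K2 => ?_, ?_,
    fun t ht s hs => ?_, fun t t' s s' a b c => ?_⟩
  · rw [← hΛ]; exact dvd_add ⟨_, mul_assoc _ _ _⟩ ⟨_, mul_assoc _ _ _⟩
  · have K0 : (2 : ℝ) ≤ K := by exact_mod_cast K2
    have f : ((2 : ℝ) ^ K / 4) ^ 2 ^ K ≤ (2 ^ K).factorial := by
      have := Real.pow_div_factorial_le_exp ((2 ^ K : ℕ) : ℝ) (by positivity) (2 ^ K)
      rw [div_le_iff₀ (by positivity), ← Real.exp_one_pow] at this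
      rw [div_pow, div_le_iff₀' (by positivity)]
      push_cast at this
      refine this.trans ?_
      gcongr
      linarith [Real.exp_one_lt_d9]
    refine le_trans ?_ ((pow_le_pow_left₀ (by positivity) f s).trans (by exact_mod_cast e1))
    rw [show (2 : ℝ) ^ K / 4 = 2 ^ (K - 2 : ℝ) by rw [Real.rpow_sub two_pos]; norm_num,
      ← Real.rpow_mul_natCast zero_le_two, ← Real.rpow_mul_natCast zero_le_two]
    refine Real.rpow_le_rpow_of_exponent_le one_le_two ?_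
    have a : (I : ℝ) ^ 2 - I ≤ K * 2 ^ K * s := by
      rw [sub_le_iff_le_add]; exact_mod_cast (by rw [hΛ]; nlinarith : I ^ 2 ≤ K * 2 ^ K * s + I)
    refine (mul_le_mul_of_nonneg_left a (by rw [sub_nonneg, div_le_one (by linarith)]; exact K0)).trans_eq ?_
    push_cast; field_simp
  · refine (card_le_card fun x hx => mem_range.mpr ((e2 x hx).2.1.trans_le
      (Nat.pow_le_pow_right two_pos (Nat.le_add_left _ _)))).trans_eq (card_range _)
  · obtain ⟨a1, a2, a3⟩ := e2 _ (E.orderEmbOfFin_mem rfl ⟨t, ht⟩)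
    have := t1 s hs
    simp only [dif_pos ht, pow_add]
    refine ⟨by nlinarith [Nat.zero_le (tl s)], by nlinarith [Nat.mul_le_mul_right (2 ^ (Λ * Λ)) a2],
      fun m' k' b c => ?_⟩
    rw [dv_cat (Nat.pos_of_dvd_of_pos b hK) (by rw [← hΛ, mul_assoc]; exact b.mul_right _) _ _ _ this,
      a3 _ _ b c, t2 s hs _ _ b c, add_zero, cv]
  · have := t1 s c
    have e : E.orderEmbOfFin rfl ⟨t, a.trans b⟩ < E.orderEmbOfFin rfl ⟨t', b⟩ :=
      (E.orderEmbOfFin rfl).strictMono a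
    simp only [dif_pos b, dif_pos (a.trans b)]
    nlinarith [Nat.mul_le_mul_right (2 ^ (Λ * Λ)) e, Nat.zero_le (tl s')]

noncomputable def sg (m : ℕ) : ℝ := √(2 ^ m - 1) / 2 ^ m

noncomputable def DD (K m : ℕ) : ℝ := 2 ^ m * (2 ^ K * K * (sg m / √m))

theorem cv_bd {K m k m' k' : ℕ} (hK : 0 < K) (h : m ∣ K) (hk : k < 2 ^ m) (h' : m' ∣ K) (hk' : k' < 2 ^ m') :
    |cv K m k m' k'| ≤ DD K m * (sg m' / √m') ∧ cv K m k m k = DD K m * (sg m / √m) ∧
    1 ≤ DD K m ∧ cv K m k m k ≤ (K * 2 ^ K) ^ 2 := by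
  have v : ∀ {m k}, m ∣ K → k < 2 ^ m → ∑ w ∈ range (2 ^ K), dv m k w K ^ 2 =
      2 ^ K * K * (sg m / √m) ^ 2 := fun {m k} h hk => by
    have m0 := Nat.pos_of_dvd_of_pos h hK
    obtain ⟨q, rfl⟩ := h
    rw [(S12 m0 hk q).2, sg, div_pow, div_pow, Real.sq_sqrt (sub_nonneg.mpr (one_le_pow₀ one_le_two)),
      Real.sq_sqrt m.cast_nonneg]
    push_cast; field_simp
  have m0 := Nat.pos_of_dvd_of_pos h hK
  have m1 : (1 : ℝ) ≤ m := by exact_mod_cast m0
  have s1 : 1 ≤ √m := Real.one_le_sqrt.mpr m1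
  have mK : (m : ℝ) ≤ K := by exact_mod_cast Nat.le_of_dvd hK h
  have t1 : (2 : ℝ) ≤ 2 ^ m := le_self_pow₀ one_le_two m0.ne'
  have t2 : (2 : ℝ) ^ m ≤ 2 ^ K := pow_le_pow_right₀ one_le_two (Nat.le_of_dvd hK h)
  have n : ∀ m, 0 ≤ sg m := fun m => by unfold sg; positivity
  have e : cv K m k m k = DD K m * (sg m / √m) := by
    simp only [cv, ← sq, v h hk, DD]; ring
  refine ⟨?_, e, ?_, ?_⟩
  · have := n m
    have := n m'
    rw [cv, DD, abs_mul, abs_of_pos (by positivity), mul_assoc]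
    gcongr
    refine abs_le_of_sq_le_sq ((sum_mul_sq_le_sq_mul_sq _ _ _).trans_eq ?_) (by positivity)
    rw [v h hk, v h' hk']; ring
  · rw [show DD K m = 2 ^ K * (√(2 ^ m - 1) * (K / √m)) by rw [DD, sg]; field_simp]
    refine one_le_mul_of_one_le_of_one_le (by linarith) (one_le_mul_of_one_le_of_one_le
      (Real.one_le_sqrt.mpr (by linarith)) ((one_le_div (by linarith)).mpr ?_))
    exact (Real.sqrt_le_self_iff.mpr (Or.inr m1)).trans mK
  · have : sg m / √m ≤ 1 := div_le_one_of_le₀ ((div_le_one_of_le₀ (Real.sqrt_le_iff.mpr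
      ⟨by positivity, by nlinarith⟩) (by positivity)).trans s1) (by positivity)
    have := n m
    calc _ = 2 ^ m * (2 ^ K * (K * 1) * (sg m / √m) ^ 2) := by rw [e, DD]; ring
      _ ≤ 2 ^ K * (2 ^ K * (K * K) * 1 ^ 2) := by gcongr; linarith
      _ = _ := by ring

end Pool.Agent.H.MP_b5ad3e_nt
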