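import Pool.Agent.H.MP_b5ad3e_nt.C

set_option autoImplicit false

namespace Pool.Agent.H.MP_b5ad3e_nt

open Finset Filter Topology

set_option maxHeartbeats 400000

theorem tex {K : ℕ → ℕ} (h : ∀ m, 0 < m → ∀ᶠ i in atTop, m ∣ K i) : ∃ (m k : ℕ → ℕ) (s : ℕ → ℤ),
    (∀ i, m i ∣ K i ∧ k i < 2 ^ m i ∧ |s i| ≤ 1) ∧ ∀ m' k' s', 0 < m' → k' < 2 ^ m' → |s'| ≤ 1 →
      ∃ᶠ i in atTop, m i = m' ∧ k i = k' ∧ s i = s' := by
  have : ∀ i, ∃ a : ℕ × ℕ × ℤ, (a.1 ∣ K i ∧ a.2.1 < 2 ^ a.1 ∧ |a.2.2| ≤ 1) ∧ ∀ b : ℕ × ℕ × ℤ,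
      Encodable.encode b = (Nat.unpair i).1 → b.1 ∣ K i ∧ b.2.1 < 2 ^ b.1 ∧ |b.2.2| ≤ 1 → a = b := fun i => by
    by_cases c : ∃ b : ℕ × ℕ × ℤ, Encodable.encode b = (Nat.unpair i).1 ∧
        b.1 ∣ K i ∧ b.2.1 < 2 ^ b.1 ∧ |b.2.2| ≤ 1
    · obtain ⟨a, h1, h2⟩ := c
      exact ⟨a, h2, fun b e _ => Encodable.encode_injective (h1.trans e.symm)⟩
    · exact ⟨(1, 0, 0), by simp, fun b e g => (c ⟨b, e, g⟩).elim⟩
  choose a h1 h2 using this
  refine ⟨_, _, _, h1, fun m k s a1 a2 a3 => ?_⟩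
  refine (Frequently.and_eventually (p := fun i => Encodable.encode (m, k, s) = (Nat.unpair i).1)
    (frequently_atTop.mpr fun N => ⟨Nat.pair (Encodable.encode (m, k, s)) N,
    Nat.right_le_pair _ _, by rw [Nat.unpair_pair]⟩) (h m a1)).mono
    fun i hi => by simp [h2 i (m, k, s) hi.1 ⟨hi.2, a2, a3⟩]

theorem btw {u : ℕ → ℕ} (h : StrictMono u) {R n : ℕ} (hn : u R ≤ n) : ∃ r, R ≤ r ∧ u r ≤ n ∧ n < u (r + 1) := by
  induction n, hn using Nat.le_induction with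
  | base => exact ⟨R, le_rfl, le_rfl, h (by omega)⟩
  | succ n _ ih =>
    obtain ⟨r, a, b, c⟩ := ih
    by_cases d : n + 1 < u (r + 1)
    · exact ⟨r, a, by omega, d⟩
    · exact ⟨r + 1, by omega, by omega, by have := h (show r + 1 < r + 1 + 1 by omega); omega⟩

def sn (t u : ℕ) : ℤ := if u < t then 1 else if u < 2 * t then -1 else 0

theorem sn_sum (t u : ℕ) : ∑ j ∈ range u, sn t j = if u ≤ t then (u : ℤ) else if u ≤ 2 * t then 2 * t - u else 0 := by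
  induction u with
  | zero => simp
  | succ u ih => rw [sum_range_succ, ih, sn]; split_ifs <;> omega

theorem grow {K M : ℕ → ℕ} (h0 : ∀ i, 0 < K i) (h : ∀ m, 0 < m → ∀ᶠ i in atTop, m ∣ K i)
    (hM : ∀ i, 2 ≤ K i → (2 : ℝ) ^ ((1 - 2 / K i : ℝ) * ((i + 8 : ℕ) ^ 2 - (i + 8 : ℕ))) ≤ M i)
    {θ : ℝ} (hθ : θ < 1) : ∀ᶠ i : ℕ in atTop, (2 : ℝ) ^ (θ * (i + 9) ^ 2) < M i := by
  have t : 0 < 1 - θ := by linarith
  filter_upwards [h (⌈4 / (1 - θ)⌉₊ + 2) (by omega),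
    tendsto_natCast_atTop_atTop.eventually_ge_atTop (8 / (1 - θ))] with i a b
  have a1 := Nat.le_of_dvd (h0 i) a
  have a2 : 4 / (1 - θ) ≤ K i := (Nat.le_ceil _).trans (by exact_mod_cast (by omega))
  have k0 : (0 : ℝ) < K i := by exact_mod_cast h0 i
  refine lt_of_lt_of_le (Real.rpow_lt_rpow_of_exponent_lt one_lt_two ?_) (hM i (by omega))
  rw [div_le_iff₀ t] at a2 b
  have a3 : (1 + θ) / 2 ≤ 1 - 2 / K i := by
    rw [le_sub_comm, div_le_iff₀ k0]; linarith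
  have i0 := i.cast_nonneg (α := ℝ)
  push_cast
  refine lt_of_lt_of_le ?_ (mul_le_mul_of_nonneg_right a3 (by nlinarith))
  nlinarith [mul_nonneg i0 t.le, mul_le_mul_of_nonneg_left b i0]

theorem fin {f : ℕ → ℝ} {x : ℕ → ℝ} {m : ℕ} (hm : 0 < m) (r : ℕ → ℝ) (hx : ∀ i, x i = r i ^ 4)
    (hr : ∀ C, 0 < C → ∀ᶠ i : ℕ in atTop, C * (i + 8) ^ 3 ≤ r i) {C : ℝ} (hC : 0 < C) (R : ℕ)
    (up : ∀ i0, R ≤ i0 → ∀ᶠ q : ℕ in atTop, ∃ i, i0 ≤ i ∧ x i ≤ m * q ∧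
      |f q| ≤ C * (i + 8) ^ 3 + sg m / √m * ph (x i))
    (lo : ∀ s : ℤ, s = 1 ∨ s = -1 → ∃ᶠ i in atTop, ∃ q : ℕ, x i ≤ m * q ∧
      m * q ≤ x i + (ph (x i) + 1) * (i + 8) ^ 2 ∧ sg m / √m * ph (x i) - C * (i + 8) ^ 3 ≤ s * f q)
    {ε : ℝ} (hε : 0 < ε) : (∀ᶠ q in atTop, |f q / ph q| < sg m + ε) ∧
      ∀ s : ℤ, s = 1 ∨ s = -1 → ∃ᶠ q in atTop, sg m - ε < s * (f q / ph q) := by
  have m0 : (0 : ℝ) < m := by exact_mod_cast hm
  have s0 : 0 < √m := Real.sqrt_pos.mpr m0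
  have g0 : 0 < sg m := div_pos (Real.sqrt_pos.mpr (sub_pos.mpr (one_lt_pow₀ one_lt_two hm.ne'))) (by positivity)
  obtain ⟨η, ⟨e1, e2⟩, e0⟩ := ((((show ContinuousAt (fun η : ℝ => (sg m + η) * (1 + η)) 0 by
    fun_prop).eventually_lt continuousAt_const (show _ < sg m + ε by simpa)).and
    ((show ContinuousAt (fun η : ℝ => max (sg m - ε) 0 * (1 + η) ^ 2) 0 by fun_prop).eventually_lt
      (show ContinuousAt (fun η : ℝ => sg m - η) 0 by fun_prop) (by simp [hε, g0]))).filter_mono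
    nhdsWithin_le_nhds |>.and (self_mem_nhdsWithin (s := Set.Ioi (0 : ℝ)))).exists
  replace e0 : 0 < η := e0
  have i1 : ∀ i : ℕ, (1 : ℝ) ≤ i + 8 := fun i => by linarith [i.cast_nonneg (α := ℝ)]
  have tr : Tendsto r atTop atTop := tendsto_atTop.mpr fun b =>
    (hr _ (by positivity : 0 < |b| + 1)).mono fun i h => by
      nlinarith [le_abs_self b, abs_nonneg b, one_le_pow₀ (n := 3) (i1 i)]
  have tx : Tendsto x atTop atTop := ((tendsto_pow_atTop (n := 4) (by simp)).comp tr).congr fun i => (hx i).symm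
  have ev : ∀ᶠ i : ℕ in atTop, 0 < ph (x i) / √m ∧ C * (i + 8) ^ 3 ≤ η * (ph (x i) / √m) ∧
      ∀ q : ℕ, x i ≤ m * q → ph (x i) / √m ≤ (1 + η) * ph q ∧
        (m * q ≤ x i + (ph (x i) + 1) * (i + 8) ^ 2 → ph q ≤ (1 + η) ^ 2 * (ph (x i) / √m)) := by
    filter_upwards [tr.eventually ph_bd, tr.eventually_ge_atTop 1, hr (C * √m / η) (by positivity),
      hr (3 / η) (by positivity), tx.eventually_ge_atTop (3 * m),
      tx.eventually (ph_sc (one_div_pos.mpr m0) e0),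
      tx.eventually (ph_sc (show 0 < (1 + η) / m by positivity) e0)] with i ⟨a1, a2⟩ a3 a4 a5 a6 ⟨_, a7⟩ ⟨a8, _⟩
    rw [← hx] at a1 a2
    have p0 : 0 < ph (x i) := lt_of_lt_of_le (by positivity) a1
    rw [div_mul_eq_mul_div, div_le_iff₀ e0] at a4 a5
    refine ⟨by positivity, ?_, fun q hq => ?_⟩
    · rw [← mul_div_assoc, le_div_iff₀ s0]; nlinarith [mul_le_mul_of_nonneg_left a1 e0.le, mul_le_mul_of_nonneg_left a3 (show 0 ≤ η * r i by positivity)]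
    have q1 : 1 / m * x i ≤ q := by rwa [one_div_mul_eq_div, div_le_iff₀' m0]
    have q0 : 3 ≤ 1 / m * x i := by rwa [one_div_mul_eq_div, le_div_iff₀ m0]
    refine ⟨le_trans (le_of_eq ?_) (a7.trans (by gcongr; exact ph_mono q0 q1)), fun h => ?_⟩
    · rw [Real.sqrt_div' _ m0.le, Real.sqrt_one]; ring
    refine (ph_mono (q0.trans q1) (y := (1 + η) / m * x i) ?_).trans (a8.trans ?_)
    · rw [div_mul_eq_mul_div, le_div_iff₀' m0]
      have r3 := one_le_pow₀ (n := 3) a3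
      have : (ph (x i) + 1) * (i + 8) ^ 2 ≤ (3 * r i ^ 3) * (i + 8) ^ 3 := by
        gcongr
        · linarith
        · exact i1 i
        · norm_num
      rw [hx] at *
      nlinarith [mul_le_mul_of_nonneg_left a5 (zero_le_one.trans r3)]
    · rw [Real.sqrt_div' _ m0.le, sq, mul_assoc, div_mul_eq_mul_div, mul_div_assoc]
      gcongr
      exact Real.sqrt_le_self_iff.mpr (Or.inr (by linarith))
  obtain ⟨i0, h0⟩ := eventually_atTop.mp ev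
  refine ⟨(up (max i0 R) (le_max_right _ _)).mono fun q ⟨i, a, b, c⟩ => ?_, fun s hs => frequently_atTop.mpr fun N => ?_⟩
  · obtain ⟨d1, d2, d3⟩ := h0 i (le_of_max_le_left a)
    have d4 := (d3 q b).1
    have p0 : 0 < ph q := (mul_pos_iff_of_pos_left (by positivity)).mp (d1.trans_le d4)
    rw [abs_div, abs_of_pos p0, div_lt_iff₀ p0]
    rw [div_mul_eq_mul_div, mul_div_assoc] at c
    nlinarith [mul_le_mul_of_nonneg_left d4 (show 0 ≤ sg m + η by positivity), mul_lt_mul_of_pos_right e1 p0]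
  · obtain ⟨i, ⟨q, a, b, c⟩, ⟨d1, d2, d3⟩, d⟩ := ((lo s hs).and_eventually (ev.and
      (tx.eventually_ge_atTop (m * N)))).exists
    obtain ⟨d4, d5⟩ := d3 q a
    have p0 : 0 < ph q := (mul_pos_iff_of_pos_left (by positivity)).mp (d1.trans_le d4)
    refine ⟨q, by exact_mod_cast le_of_mul_le_mul_left (d.trans a) m0, ?_⟩
    rw [← mul_div_assoc, lt_div_iff₀ p0]
    rw [div_mul_eq_mul_div, mul_div_assoc] at c
    nlinarith [mul_le_mul_of_nonneg_left (d5 b) (le_max_right (sg m - ε) 0), mul_lt_mul_of_pos_right e2 d1,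
      mul_le_mul_of_nonneg_right (le_max_left (sg m - ε) 0) p0.le]

end Pool.Agent.H.MP_b5ad3e_nt
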