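import Pool.Agent.H.MP_b5ad3e_nt.D

set_option autoImplicit false

namespace Pool.Agent.H.MP_b5ad3e_nt

open Finset Filter Topology

set_option maxHeartbeats 800000

theorem main : ∃ a L : ℕ → ℕ, StrictMono a ∧ (∀ n, 2 ^ L n ≤ 2 * a n ∧ a n < 2 ^ L n) ∧
    (∀ n, ∃ n' ≥ n, 2 ∣ a n') ∧ (∀ θ : ℝ, θ < 1 → ∀ᶠ N : ℕ in atTop,
      (N : ℝ) ^ θ < (Nat.card {n : ℕ | a n ≤ N} : ℝ)) ∧ ∀ m k, 0 < m → k < 2 ^ m → ∀ f : ℕ → ℝ,
    (∀ q j : ℕ, |f (q + j) - f q| ≤ j) → (∀ n, m ∣ ∑ j ∈ range n, L j → m ∣ L n →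
      f ((∑ j ∈ range (n + 1), L j) / m) = f ((∑ j ∈ range n, L j) / m) + dv m k (a n) (L n)) →
    ∀ ε, 0 < ε → (∀ᶠ q in atTop, |f q / ph q| < sg m + ε) ∧
      ∀ s : ℤ, s = 1 ∨ s = -1 → ∃ᶠ q in atTop, sg m - ε < s * (f q / ph q) := by
  obtain ⟨K, k1, k2⟩ := Kex
  obtain ⟨mm, kk, ss, t1, t2⟩ := tex k2
  choose l M w c1 c2 c3 c4 c5 c6 c7 using fun i => cls (k1 i).1 (k1 i).2 (t1 i).1 (t1 i).2.1
  have gr := fun θ => grow (fun i => (k1 i).1) k2 c4 (θ := θ)
  have : ∀ i x, ∃ p, (i + 7) ^ 2 < p ∧ p < l i ∧ K i ∣ x + p := fun i x => by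
    have a := (k1 i).1
    have b := (k1 i).2
    have c := c1 i
    have d : K i ≤ K i * 2 ^ K i := Nat.le_mul_of_pos_right _ (by positivity)
    have e := Nat.lt_div_mul_add (a := x + (i + 7) ^ 2) a
    have f := Nat.div_mul_le_self (x + (i + 7) ^ 2) (K i)
    refine ⟨(x + (i + 7) ^ 2) / K i * K i + K i - x, by omega, ?_, ?_⟩
    · have : (i + 7) ^ 2 + K i < l i := by nlinarith [Nat.zero_le (K i * 2 ^ K i * (K i * 2 ^ K i))]
      omega
    · rw [Nat.add_sub_cancel' (by omega)]; simp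
  choose pf p1 p2 p3 using this
  obtain ⟨X, x0, x1⟩ : ∃ X : ℕ → ℕ, X 0 = 0 ∧ ∀ i, X (i + 1) = X i + pf i (X i) + M i * l i :=
    ⟨fun n => n.rec 0 fun i x => x + pf i x + M i * l i, rfl, fun _ => rfl⟩
  obtain ⟨t0, h0⟩ : ∃ t0 : ℕ → ℕ, ∀ i, t0 i = min ⌊ph (X i) / DD (K i) (mm i)⌋₊ (M i / 2) := ⟨_, fun _ => rfl⟩
  obtain ⟨W, w0, w1⟩ : ∃ W : ℕ → ℕ → ℕ, (∀ i, W i 0 = 2 ^ (pf i (X i) - 1)) ∧
      ∀ i t, W i (t + 1) = w i t (ss i * sn (t0 i) t) :=
    ⟨fun i t => t.casesOn (2 ^ (pf i (X i) - 1)) fun t => w i t (ss i * sn (t0 i) t), fun _ => rfl, fun _ _ => rfl⟩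
  obtain ⟨Λ, l0, l1⟩ : ∃ Λ : ℕ → ℕ → ℕ, (∀ i, Λ i 0 = pf i (X i)) ∧ ∀ i t, Λ i (t + 1) = l i :=
    ⟨fun i t => t.casesOn (pf i (X i)) fun _ => l i, fun _ => rfl, fun _ _ => rfl⟩
  have s1 : ∀ i t, |ss i * sn (t0 i) t| ≤ 1 := fun i t => by
    have := (t1 i).2.2
    unfold sn; split_ifs <;> simp [this]
  have wl : ∀ i t, t < M i + 1 → 2 ^ Λ i t ≤ 2 * W i t ∧ W i t < 2 ^ Λ i t ∧ Λ i t ≤ (i + 8) ^ 2 ∧
      (i + 7) ^ 2 < Λ i t := fun i t ht => by
    have a := p1 i (X i)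
    have b := p2 i (X i)
    have c := c2 i
    cases t with
    | zero =>
      rw [w0, l0]
      exact ⟨by rw [← pow_succ', Nat.sub_add_cancel (by omega)],
        Nat.pow_lt_pow_right one_lt_two (by omega), by omega, a⟩
    | succ t =>
      rw [w1, l1]
      exact ⟨(c6 i t (by omega) _ (s1 i t)).1, (c6 i t (by omega) _ (s1 i t)).2.1, c, by omega⟩
  obtain ⟨I, T, i1, i2⟩ := idx (c := fun i => M i + 1) fun _ => Nat.succ_pos _
  obtain ⟨S, hS⟩ : ∃ S : ℕ → ℕ, ∀ i, ∑ j ∈ range i, (M j + 1) = S i := ⟨_, fun _ => rfl⟩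
  have S1 : ∀ i, S (i + 1) = S i + (M i + 1) := fun i => by rw [← hS, ← hS, sum_range_succ]
  have S2 : StrictMono S := strictMono_nat_of_lt_succ fun i => by rw [S1]; omega
  simp only [hS] at i1 i2
  have i3 : ∀ n i, n < S (i + 1) ↔ I n ≤ i := fun n i => by
    obtain ⟨a, b⟩ := i1 n
    refine ⟨fun h => Nat.lt_add_one_iff.mp (S2.lt_iff_lt.mp (by omega)), fun h => ?_⟩
    have : S (I n + 1) ≤ S (i + 1) := S2.monotone (by omega)
    rw [S1] at this; omega
  have sm : StrictMono fun n => W (I n) (T n) := strictMono_nat_of_lt_succ fun n => by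
    obtain ⟨a, b⟩ := i1 n
    generalize I n = i, T n = t at *
    subst b
    by_cases h : t + 1 < M i + 1
    · simp only [add_assoc, i2 i _ h, w1]
      cases t with
      | zero =>
        have := (c6 i 0 (by omega) _ (s1 i 0)).1
        have e := Nat.pow_lt_pow_right one_lt_two (p2 i (X i))
        have := wl i 0 a
        rw [l0] at this
        have : 2 ^ (pf i (X i) + 1) ≤ 2 ^ l i := Nat.pow_le_pow_right two_pos (p2 i (X i))
        omega
      | succ t => rw [w1]; exact c7 i _ _ _ _ t.lt_succ_self (by omega) (s1 i t)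
    · rw [show S i + t + 1 = S (i + 1) + 0 by rw [S1]; omega]
      simp only [i2 (i + 1) 0 (by omega), w0]
      have := p1 (i + 1) (X (i + 1))
      exact (wl i t a).2.1.trans_le (Nat.pow_le_pow_right two_pos (by
        have := (wl i t a).2.2.1; rw [show i + 1 + 7 = i + 8 by omega] at *; omega))
  refine ⟨_, fun n => Λ (I n) (T n), sm, fun n => ⟨(wl _ _ (i1 n).1).1, (wl _ _ (i1 n).1).2.1⟩,
    fun n => ⟨S n + 0, S2.le_apply, ?_⟩, fun θ hθ => ?_, fun m k hm hk f f1 f2 ε hε => ?_⟩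
  · simp only [i2 n 0 (by omega), w0]
    exact dvd_pow_self 2 (by have := p1 n (X n); have := Nat.le_self_pow two_ne_zero (n + 7); omega)
  · obtain ⟨R, hR⟩ := eventually_atTop.mp (gr (max θ 0) (by simp [hθ]))
    filter_upwards [eventually_ge_atTop (2 ^ (R + 8) ^ 2)] with N hN
    obtain ⟨i, a, b, c⟩ := btw (u := fun i => 2 ^ (i + 8) ^ 2) (fun _ _ h =>
      Nat.pow_lt_pow_right one_lt_two (by gcongr)) hN
    have N1 : (1 : ℝ) ≤ N := by exact_mod_cast (Nat.one_le_two_pow.trans hN)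
    calc _ ≤ (N : ℝ) ^ max θ 0 := Real.rpow_le_rpow_of_exponent_le N1 (le_max_left _ _)
      _ ≤ (2 ^ (i + 9) ^ 2) ^ max θ 0 := by gcongr; exact_mod_cast c.le
      _ = 2 ^ (max θ 0 * (i + 9) ^ 2) := by
        rw [← Real.rpow_natCast, ← Real.rpow_mul zero_le_two, mul_comm]; push_cast; rfl
      _ < _ := hR i a
      _ ≤ _ := by
        rw [Nat.cast_le, Nat.card_coe_set_eq]
        refine le_trans ?_ (Set.ncard_le_ncard (s := range (S (i + 1))) (fun n hn => ?_)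
          ((Set.finite_Iic N).subset fun n hn => sm.le_apply.trans hn))
        · rw [Set.ncard_coe_finset, card_range, S1]; omega
        · have := (i3 n i).mp (mem_range.mp hn)
          obtain ⟨-, d, e, -⟩ := wl _ _ (i1 n).1
          exact (d.le.trans (Nat.pow_le_pow_right two_pos (e.trans (by gcongr)))).trans b
  obtain ⟨P, hP⟩ : ∃ P : ℕ → ℕ, ∀ n, ∑ j ∈ range n, Λ (I j) (T j) = P n := ⟨_, fun _ => rfl⟩
  have P1 : ∀ n, P (n + 1) = P n + Λ (I n) (T n) := fun n => by rw [← hP, ← hP, sum_range_succ]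
  have P2 : StrictMono P := strictMono_nat_of_lt_succ fun n => by
    have := (wl _ _ (i1 n).1).2.2.2
    rw [P1]; omega
  simp only [hP] at f2
  have P3 : ∀ i, P (S i) = X i → ∀ t ≤ M i, P (S i + (t + 1)) = X i + pf i (X i) + t * l i := fun i h t ht => by
    induction t with
    | zero => have := P1 (S i + 0); simp only [i2 i 0 (by omega), l0] at this; simpa [h] using this
    | succ t ih => rw [← add_assoc, P1, ih (by omega)]; simp only [i2 i (t + 1) (by omega), l1]; ring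
  have P4 : ∀ i, P (S i) = X i := fun i => by
    induction i with
    | zero => rw [← hS, ← hP, x0]; rfl
    | succ i ih => rw [S1, P3 i ih _ le_rfl, x1]
  have lip : ∀ {q q' j : ℕ}, q ≤ q' → q' ≤ q + j → |f q' - f q| ≤ j := fun {q q' j} a b => by
    obtain ⟨d, rfl⟩ := Nat.exists_eq_add_of_le a
    exact (f1 q d).trans (by exact_mod_cast (by omega))
  have lp : ∀ n q, P n ≤ m * q → m * q ≤ P (n + 1) ∨ q = P (n + 1) / m → |f q - f (P n / m)| ≤ (I n + 8) ^ 2 :=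
    fun n q a b => by
      refine (lip (j := Λ (I n) (T n)) (Nat.div_le_of_le_mul a) ?_).trans (by exact_mod_cast (wl _ _ (i1 n).1).2.2.1)
      refine (b.elim (fun b => (Nat.le_div_iff_mul_le hm).mpr (mul_comm m q ▸ b)) fun b => b.le).trans ?_
      rw [P1, ← Nat.add_mul_div_left _ _ hm]
      exact Nat.div_le_div_right (Nat.add_le_add_left (Nat.le_mul_of_pos_left _ hm) _)
  obtain ⟨R, hR⟩ := eventually_atTop.mp (k2 m hm)
  have dP : ∀ i ≥ R, ∀ t ≤ M i, m ∣ P (S i + (t + 1)) := fun i hi t ht => by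
    rw [P3 i (P4 i) t ht]; exact (hR i hi).trans (dvd_add (p3 _ _) ((c3 i).mul_left _))
  have F1 : ∀ i ≥ R, ∀ t ≤ M i, f (P (S i + (t + 1)) / m) = f (P (S i + 1) / m) +
      ss i * (∑ j ∈ range t, sn (t0 i) j : ℤ) * cv (K i) (mm i) (kk i) m k := fun i hi t ht => by
    induction t with
    | zero => simp
    | succ t ih =>
      rw [← add_assoc, f2 _ (dP i hi t (by omega)), ih (by omega), sum_range_succ] <;>
        simp only [i2 i (t + 1) (by omega), l1, w1]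
      · rw [(c6 i t (by omega) _ (s1 i t)).2.2 m k (hR i hi) hk]; push_cast; ring
      · exact (hR i hi).trans (c3 i)
  have F0 : ∀ i, |f (P (S i + 1) / m) - f (P (S i) / m)| ≤ (i + 8) ^ 2 := fun i => by
    have e := (i2 i 0 (by omega)).1
    rw [add_zero] at e
    refine (lip (j := Λ (I (S i)) (T (S i))) (Nat.div_le_div_right (P2.monotone (by omega))) ?_).trans
      (by rw [← e]; simp only [e]; have := (wl _ _ (i1 (S i)).1).2.2.1; simp only [e] at this; exact_mod_cast this)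
    rw [P1, ← Nat.add_mul_div_left _ _ hm]
    exact Nat.div_le_div_right (Nat.add_le_add_left (Nat.le_mul_of_pos_left _ hm) _)
  obtain ⟨C, hC⟩ : ∃ C, C = |f (P (S R) / m)| := ⟨_, rfl⟩
  have C0 : 0 ≤ C := hC ▸ abs_nonneg _
  have F2 : ∀ i ≥ R, |f (P (S i) / m)| ≤ C + i * (i + 8) ^ 2 := fun i hi => by
    induction i, hi using Nat.le_induction with
    | base => rw [hC]; exact le_add_of_nonneg_right (by positivity)
    | succ i hi ih =>
      have i0 := i.cast_nonneg (α := ℝ)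
      rw [S1, F1 i hi _ le_rfl, sn_sum, show (if M i ≤ t0 i then (M i : ℤ) else if M i ≤ 2 * t0 i then
        2 * t0 i - M i else 0) = 0 by have := h0 i; split_ifs <;> omega]
      push_cast
      have := abs_sub_abs_le_abs_sub (f (P (S i + 1) / m)) (f (P (S i) / m))
      simp only [mul_zero, zero_mul, add_zero]
      nlinarith [F0 i]
  have F3 : ∀ i ≥ R, |f (P (S i + 1) / m)| ≤ (C + 1) * (i + 8) ^ 3 - (i + 8) ^ 2 - (i + 8) := fun i hi => by
    have i0 := i.cast_nonneg (α := ℝ)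
    have := abs_sub_abs_le_abs_sub (f (P (S i + 1) / m)) (f (P (S i) / m))
    nlinarith [F0 i, F2 i hi, mul_le_mul_of_nonneg_left (one_le_pow₀ (n := 3) (show (1 : ℝ) ≤ i + 8 by linarith)) C0]
  have X2 : ∀ i, X i ≤ 2 ^ (i + 8) ^ 2 := fun i => by
    induction i with
    | zero => simp [x0]
    | succ i ih =>
      have a := (c5 i).trans (Nat.pow_le_pow_right two_pos (c2 i))
      have b := (p2 i (X i)).le.trans (c2 i)
      have c := Nat.mul_le_mul a (c2 i)
      have d : i + 8 < 2 ^ (i + 8) := Nat.lt_two_pow_self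
      have e : 1 ≤ 2 ^ (i + 8) ^ 2 := Nat.one_le_two_pow
      rw [x1, show (i + 1 + 8) ^ 2 = (i + 8) ^ 2 + ((i + 8) + (i + 8) + 1) by ring, pow_add, pow_succ 2, pow_add 2 (i + 8)]
      have g : (i + 8 + 1) * (i + 8 + 1) ≤ 2 ^ (i + 8) * 2 ^ (i + 8) := Nat.mul_le_mul d d
      nlinarith [Nat.mul_le_mul_left (2 ^ (i + 8) ^ 2) g, Nat.mul_le_mul_right ((i + 8) ^ 2) e]
  have n0 : ∀ i, 0 ≤ ph (X i) := fun i => Real.sqrt_nonneg _
  have t3 : ∀ i, (t0 i : ℝ) * DD (K i) (mm i) ≤ ph (X i) := fun i => by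
    have := (cv_bd (k1 i).1 (t1 i).1 (t1 i).2.1 (t1 i).1 (t1 i).2.1).2.2.1
    rw [← le_div_iff₀ (by linarith)]
    exact le_trans (by exact_mod_cast h0 i ▸ min_le_left _ _) (Nat.floor_le (div_nonneg (n0 i) (by linarith)))
  have hr : ∀ c : ℝ, 0 < c → ∀ᶠ i : ℕ in atTop, c * (i + 8) ^ 3 ≤ √√(X i) := fun c hc => by
    rw [← map_add_atTop_eq_nat 1, eventually_map]
    filter_upwards [gr (1 / 2) (by norm_num), ((tendsto_pow_const_div_const_pow_of_one_lt 12
      one_lt_two).comp (tendsto_add_atTop_nat 9)).eventually_le_const (show 0 < 1 / c ^ 4 by positivity)] with i a b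
    have i0 := i.cast_nonneg (α := ℝ)
    refine Real.le_sqrt_of_sq_le (Real.le_sqrt_of_sq_le ?_)
    simp only [Function.comp] at b
    rw [div_le_div_iff₀ (by positivity) (by positivity), ← Real.rpow_natCast 2] at b
    push_cast at b ⊢
    have d : M i ≤ X (i + 1) := by
      rw [x1]; nlinarith [p2 i (X i), Nat.zero_le (X i)]
    have e : (2 : ℝ) ^ (i + 9 : ℝ) ≤ 2 ^ (1 / 2 * (i + 9 : ℝ) ^ 2) :=
      Real.rpow_le_rpow_of_exponent_le one_le_two (by nlinarith)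
    calc _ = (i + 9) ^ 12 * c ^ 4 := by ring
      _ ≤ _ := by linarith [show (M i : ℝ) ≤ X (i + 1) by exact_mod_cast d]
  have hx : ∀ i, (X i : ℝ) = √√(X i) ^ 4 := fun i => by
    rw [show 4 = 2 * 2 from rfl, pow_mul, Real.sq_sqrt (Real.sqrt_nonneg _), Real.sq_sqrt (by positivity)]
  refine fin hm _ hx hr (show 0 < C + 1 by linarith) R (fun i0 hi => ?_) (fun s hs => ?_) hε
  · filter_upwards [eventually_ge_atTop (X i0)] with q hq
    obtain ⟨n, a, b, c⟩ := btw P2 (R := S i0) ((P4 i0).trans_le (hq.trans (Nat.le_mul_of_pos_left q hm)))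
    have d := lp n q b (Or.inl c.le)
    obtain ⟨e, e'⟩ := i1 n
    have g : i0 ≤ I n := Nat.lt_succ_iff.mp (S2.lt_iff_lt.mp (a.trans_lt ((i3 n _).mpr le_rfl)))
    generalize I n = i, T n = t at *
    subst e'
    have i0 := i.cast_nonneg (α := ℝ)
    have σ : 0 ≤ sg m / √m * ph (X i) := mul_nonneg (by unfold sg; positivity) (n0 i)
    refine ⟨i, g, by exact_mod_cast ((P4 i).ge.trans (P2.monotone (by omega))).trans b, ?_⟩
    have := abs_sub_abs_le_abs_sub (f q) (f (P (S i + t) / m))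
    cases t with
    | zero =>
      rw [add_zero] at *
      nlinarith [F2 i (hi.trans g), mul_le_mul_of_nonneg_left (one_le_pow₀ (n := 3) (show (1 : ℝ) ≤ i + 8 by linarith)) C0]
    | succ t =>
      rw [F1 i (hi.trans g) t (by omega)] at *
      have u : |ss i * (∑ j ∈ range t, sn (t0 i) j : ℤ) * cv (K i) (mm i) (kk i) m k| ≤
          1 * t0 i * (DD (K i) (mm i) * (sg m / √m)) := by
        rw [abs_mul, abs_mul]
        gcongr
        · exact_mod_cast (t1 i).2.2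
        · exact_mod_cast (by rw [sn_sum, abs_le]; split_ifs <;> omega : |∑ j ∈ range t, sn (t0 i) j| ≤ t0 i)
        · exact (cv_bd (k1 i).1 (t1 i).1 (t1 i).2.1 (hR i (hi.trans g)) hk).1
      nlinarith [F3 i (hi.trans g), abs_add_le (f (P (S i + 1) / m)) (ss i * (∑ j ∈ range t, sn (t0 i) j : ℤ) *
        cv (K i) (mm i) (kk i) m k), mul_le_mul_of_nonneg_right (t3 i) (show 0 ≤ sg m / √m by unfold sg; positivity)]
  · have tr : Tendsto (fun i => √√(X i : ℝ)) atTop atTop := tendsto_atTop.mpr fun b =>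
      (hr _ (by positivity : 0 < |b| + 1)).mono fun i h => by
        nlinarith [le_abs_self b, abs_nonneg b, one_le_pow₀ (n := 3)
          (show (1 : ℝ) ≤ i + 8 by linarith [i.cast_nonneg (α := ℝ)])]
    refine ((t2 m k s hm hk (by rcases hs with rfl | rfl <;> simp)).and_eventually ((eventually_ge_atTop R).and
      ((tr.eventually ph_bd).and (gr (3 / 4) (by norm_num))))).mono fun i ⟨⟨a1, a2, a3⟩, a4, ⟨_, a5⟩, a6⟩ => ?_
    obtain ⟨-, b1, b2, b3⟩ := cv_bd (k1 i).1 (t1 i).1 (t1 i).2.1 (t1 i).1 (t1 i).2.1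
    have i0 := i.cast_nonneg (α := ℝ)
    rw [← hx] at a5
    have tM : t0 i ≤ M i := by have := h0 i; omega
    have b4 : 2 * ph (X i) ≤ M i := by
      refine (show _ ≤ 4 * √√(X i : ℝ) ^ 3 by linarith).trans (le_trans ?_ a6.le)
      refine le_of_pow_le_pow_left₀ four_ne_zero (by positivity) ?_
      rw [← Real.rpow_mul_natCast zero_le_two, mul_pow, pow_right_comm, ← hx]
      calc _ ≤ 4 ^ 4 * ((2 : ℝ) ^ (i + 8) ^ 2) ^ 3 := by gcongr; exact_mod_cast X2 i
        _ = 2 ^ ((8 + (i + 8) ^ 2 * 3 : ℕ) : ℝ) := by rw [Real.rpow_natCast, pow_add, pow_mul]; norm_num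
        _ ≤ _ := Real.rpow_le_rpow_of_exponent_le one_le_two (by push_cast; nlinarith)
    have b5 : ph (X i) ≤ (t0 i + 1) * DD (K i) (mm i) := by
      have : ⌊ph (X i) / DD (K i) (mm i)⌋₊ ≤ M i / 2 := (Nat.le_div_iff_mul_le two_pos).mpr (by
        have := (Nat.floor_le (div_nonneg (n0 i) (zero_le_one.trans b2))).trans (div_le_self (n0 i) b2)
        exact_mod_cast (show (⌊ph (X i) / DD (K i) (mm i)⌋₊ : ℝ) * 2 ≤ M i by linarith))
      rw [← div_le_iff₀ (by linarith), h0, min_eq_left this]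
      exact (Nat.lt_floor_add_one _).le
    have b6 : (m : ℝ) * (P (S i + (t0 i + 1)) / m : ℕ) = X i + pf i (X i) + t0 i * l i := by
      exact_mod_cast (Nat.mul_div_cancel' (dP i a4 _ tM)).trans (P3 i (P4 i) _ tM)
    have b7 : (pf i (X i) : ℝ) ≤ (i + 8) ^ 2 := by exact_mod_cast (p2 i (X i)).le.trans (c2 i)
    have b8 : (t0 i : ℝ) * l i ≤ ph (X i) * (i + 8) ^ 2 := mul_le_mul
      ((le_mul_of_one_le_right (by positivity) b2).trans (t3 i)) (by exact_mod_cast c2 i) (by positivity) (n0 i)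
    refine ⟨P (S i + (t0 i + 1)) / m, by rw [b6, add_assoc]; exact le_add_of_nonneg_right (by positivity),
      by linarith, ?_⟩
    have b9 : ((K i : ℝ) * 2 ^ K i) ^ 2 ≤ i + 8 := by
      exact_mod_cast (by nlinarith [(k1 i).2, Nat.zero_le (K i * 2 ^ K i)] : (K i * 2 ^ K i) ^ 2 ≤ i + 8)
    rw [F1 i a4 _ tM, sn_sum, if_pos le_rfl, a3]
    rw [a1, a2] at *
    have := abs_le.mp (F3 i a4)
    have := mul_le_mul_of_nonneg_right b5 (show 0 ≤ sg m / √m by unfold sg; positivity)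
    rcases hs with rfl | rfl <;> push_cast <;> nlinarith

end Pool.Agent.H.MP_b5ad3e_nt
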